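import Pool.Agent.ZES.StmtsF

/-!
# ZES row UVL: the constant
-/

set_option autoImplicit false

namespace Pool.Agent.ZES.H81

open scoped BigOperators
open Pool.Agent.THS

theorem siegel_smul {g : ℕ} {τ : Matrix (Fin g) (Fin g) ℂ} (h : Siegel τ) {e : ℕ} (he : 1 ≤ e) :
    Siegel ((e : ℂ) • τ) := by
  refine ⟨?_, ?_⟩
  · rw [Matrix.transpose_smul, h.1]
  · have h1 : ((e : ℂ) • τ).map Complex.im = (e : ℝ) • (τ.map Complex.im) := by
      ext i j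
      simp [Complex.mul_im]
    rw [h1]
    exact h.2.smul (by exact_mod_cast he)

/-- the bijection `(c, m) ↦ 2 m + c` -/
def spl (g : ℕ) : (Fin g → ZMod 2) × (Fin g → ℤ) ≃ (Fin g → ℤ) where
  toFun p := fun r => 2 * p.2 r + ((p.1 r).val : ℤ)
  invFun l := (fun r => ((l r : ℤ) : ZMod 2), fun r => l r / 2)
  left_inv := by
    rintro ⟨c, m⟩
    refine Prod.ext ?_ ?_
    · funext r
      show ((2 * m r + ((c r).val : ℤ) : ℤ) : ZMod 2) = c r
      have h2 : (2 : ZMod 2) = 0 := rfl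
      push_cast
      rw [h2, zero_mul, zero_add, ZMod.natCast_zmod_val]
    · funext r
      show (2 * m r + ((c r).val : ℤ)) / 2 = m r
      have h3 : (c r).val < 2 := ZMod.val_lt _
      omega
  right_inv := by
    intro l
    funext r
    show 2 * (l r / 2) + ((((l r : ℤ) : ZMod 2)).val : ℤ) = l r
    rw [ZMod.val_intCast]
    have := Int.emod_add_mul_ediv (l r) 2
    push_cast
    omega

theorem sgn_eq {g : ℕ} (b c : Fin g → ZMod 2) (m : Fin g → ℤ) :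
    ((sgn b c : ℤ) : ℂ) = Complex.exp (Real.pi * Complex.I *
      ∑ i, ((b i).val : ℂ) * ((spl g (c, m) i : ℤ) : ℂ)) := by
  have h1 : ((sgn b c : ℤ) : ℂ) =
      Complex.exp (Real.pi * Complex.I) ^ (∑ i, (b i).val * (c i).val) := by
    rw [Complex.exp_pi_mul_I]
    unfold sgn
    push_cast
    rfl
  rw [h1, ← Complex.exp_nat_mul]
  have h2 : (Real.pi : ℂ) * Complex.I * ∑ i, ((b i).val : ℂ) * ((spl g (c, m) i : ℤ) : ℂ) =
      ((∑ i, (b i).val * (c i).val : ℕ) : ℂ) * (Real.pi * Complex.I) +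
        ((∑ i, ((b i).val : ℤ) * m i : ℤ) : ℂ) * (2 * Real.pi * Complex.I) := by
    have h3 : ∀ i, ((b i).val : ℂ) * ((spl g (c, m) i : ℤ) : ℂ) =
        ((b i).val : ℂ) * ((c i).val : ℂ) + 2 * (((b i).val : ℂ) * (m i : ℂ)) := by
      intro i
      show ((b i).val : ℂ) * ((2 * m i + ((c i).val : ℤ) : ℤ) : ℂ) = _
      push_cast
      ring
    rw [Finset.sum_congr rfl fun i _ => h3 i, Finset.sum_add_distrib, ← Finset.mul_sum]
    push_cast
    ring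
  rw [h2, Complex.exp_add, Complex.exp_int_mul_two_pi_mul_I, mul_one]

theorem term1 {g : ℕ} (τ : Matrix (Fin g) (Fin g) ℂ) {e : ℕ} (he : (e : ℂ) ≠ 0)
    (k : Fin g → ℤ) (c : Fin g → ZMod 2) (m : Fin g → ℤ) :
    tht (((4 * e : ℕ) : ℂ) • τ)
      (fun i => ((k i + 2 * (e : ℤ) * ((c i).val : ℤ) : ℤ) : ℝ) / ((4 * e : ℕ) : ℝ))
      (fun i => ((4 * e : ℕ) : ℂ) * (0 : Fin g → ℂ) i) m =
    tht ((e : ℂ) • τ) (fun i => (k i : ℝ) / (2 * (e : ℝ))) 0 (spl g (c, m)) := by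
  have hX : ∀ i, ((spl g (c, m) i : ℤ) : ℂ) + (((k i : ℝ) / (2 * (e : ℝ)) : ℝ) : ℂ) =
      2 * ((m i : ℂ) +
        ((((k i + 2 * (e : ℤ) * ((c i).val : ℤ) : ℤ) : ℝ) / ((4 * e : ℕ) : ℝ) : ℝ) : ℂ)) := by
    intro i
    show ((2 * m i + ((c i).val : ℤ) : ℤ) : ℂ) + _ = _
    push_cast
    field_simp
    ring
  unfold tht
  congr 1
  congr 1
  · congr 1
    refine Finset.sum_congr rfl fun i _ => Finset.sum_congr rfl fun j _ => ?_
    rw [hX i, hX j, Matrix.smul_apply, Matrix.smul_apply, smul_eq_mul, smul_eq_mul]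
    push_cast
    ring
  · simp

theorem term2 {g : ℕ} (τ : Matrix (Fin g) (Fin g) ℂ) (hτ : τ.transpose = τ) {e : ℕ}
    (he : (e : ℂ) ≠ 0) (b : Fin g → ZMod 2) (k s : Fin g → ℤ) (l : Fin g → ℤ) :
    Complex.exp (Real.pi * Complex.I * ∑ i, ((b i).val : ℂ) * ((l i : ℤ) : ℂ)) *
      tht ((e : ℂ) • τ) (fun i => ((k i + 2 * s i : ℤ) : ℝ) / (2 * (e : ℝ))) 0 l =
    Complex.exp (Real.pi * Complex.I * ((∑ i, ∑ j, (k i : ℂ) * τ i j * (k j : ℂ)) / (4 * (e : ℂ))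
        - (∑ i, ((b i).val : ℂ) * (s i : ℂ)) / (e : ℂ))) *
      tht ((e : ℂ) • τ) (fun i => (s i : ℝ) / (e : ℝ))
        (fun i => (e : ℂ) * (((∑ j, τ i j * (k j : ℂ)) + ((b i).val : ℂ)) / (2 * (e : ℂ)))) l := by
  unfold tht
  rw [← Complex.exp_add, ← Complex.exp_add]
  congr 1
  have hs : ∀ i j, τ i j = τ j i := by
    intro i j
    conv_lhs => rw [← hτ]
    rfl
  set N : Fin g → ℂ := fun i => (l i : ℂ) + (((s i : ℝ) / (e : ℝ) : ℝ) : ℂ) with hN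
  have hN' : ∀ i, N i = (l i : ℂ) + (s i : ℂ) / (e : ℂ) := by
    intro i
    simp only [hN]
    push_cast
    ring
  have h1 : (∑ i, ∑ j, ((l i : ℂ) + ((((k i + 2 * s i : ℤ) : ℝ) / (2 * (e : ℝ)) : ℝ) : ℂ)) *
      ((e : ℂ) • τ) i j *
        ((l j : ℂ) + ((((k j + 2 * s j : ℤ) : ℝ) / (2 * (e : ℝ)) : ℝ) : ℂ))) =
      (∑ i, ∑ j, N i * ((e : ℂ) • τ) i j * N j) + (∑ i, ∑ j, N i * τ i j * (k j : ℂ)) +
        (∑ i, ∑ j, (k i : ℂ) * τ i j * (k j : ℂ)) / (4 * (e : ℂ)) := by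
    have h2 : ∀ i j, ((l i : ℂ) + ((((k i + 2 * s i : ℤ) : ℝ) / (2 * (e : ℝ)) : ℝ) : ℂ)) *
      ((e : ℂ) • τ) i j *
        ((l j : ℂ) + ((((k j + 2 * s j : ℤ) : ℝ) / (2 * (e : ℝ)) : ℝ) : ℂ)) =
        N i * ((e : ℂ) • τ) i j * N j + (1 / 2) * (N i * τ i j * (k j : ℂ)) +
          (1 / 2) * (N j * τ j i * (k i : ℂ)) +
          (k i : ℂ) * τ i j * (k j : ℂ) * (4 * (e : ℂ))⁻¹ := by
      intro i j
      rw [hs j i, hN' i, hN' j, Matrix.smul_apply, smul_eq_mul]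
      push_cast
      field_simp
      ring
    rw [Finset.sum_congr rfl fun i _ => Finset.sum_congr rfl fun j _ => h2 i j]
    simp only [Finset.sum_add_distrib]
    have c1 : ∑ i, ∑ j, (1 / 2) * (N i * τ i j * (k j : ℂ)) =
        (1 / 2) * ∑ i, ∑ j, N i * τ i j * (k j : ℂ) := by
      simp only [Finset.mul_sum]
    have c2 : ∑ i, ∑ j, (1 / 2) * (N j * τ j i * (k i : ℂ)) =
        (1 / 2) * ∑ i, ∑ j, N i * τ i j * (k j : ℂ) := by
      rw [Finset.sum_comm]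
      simp only [Finset.mul_sum]
    have c3 : ∑ i, ∑ j, (k i : ℂ) * τ i j * (k j : ℂ) * (4 * (e : ℂ))⁻¹ =
        (∑ i, ∑ j, (k i : ℂ) * τ i j * (k j : ℂ)) * (4 * (e : ℂ))⁻¹ := by
      simp only [Finset.sum_mul]
    rw [c1, c2, c3]
    ring
  have h3 : (∑ i, N i * ((e : ℂ) * (((∑ j, τ i j * (k j : ℂ)) + ((b i).val : ℂ)) /
      (2 * (e : ℂ))))) = (1 / 2) * (∑ i, ∑ j, N i * τ i j * (k j : ℂ)) +
        (1 / 2) * ((∑ i, ((b i).val : ℂ) * ((l i : ℤ) : ℂ)) +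
          (∑ i, ((b i).val : ℂ) * (s i : ℂ)) / (e : ℂ)) := by
    rw [Finset.sum_div, ← Finset.sum_add_distrib, Finset.mul_sum, Finset.mul_sum,
      ← Finset.sum_add_distrib]
    refine Finset.sum_congr rfl fun i _ => ?_
    have h4 : ∑ j, N i * τ i j * (k j : ℂ) = N i * ∑ j, τ i j * (k j : ℂ) := by
      rw [Finset.mul_sum]
      exact Finset.sum_congr rfl fun j _ => by ring
    rw [h4]
    have h5 : ((b i).val : ℂ) * ((l i : ℤ) : ℂ) + ((b i).val : ℂ) * (s i : ℂ) / (e : ℂ) =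
        N i * ((b i).val : ℂ) := by
      rw [hN' i]
      ring
    rw [h5]
    field_simp
  rw [h1, h3]
  simp only [Pi.zero_apply, mul_zero, Finset.sum_const_zero, add_zero]
  ring

theorem uvl (tbd : TbdStatement) : UvlStmt := by
  intro g τ hτ e he b k s
  have he0 : (e : ℂ) ≠ 0 := by
    have : e ≠ 0 := by omega
    exact_mod_cast this
  refine ⟨_, Complex.exp_ne_zero (Real.pi * Complex.I *
    ((∑ i, ∑ j, (k i : ℂ) * τ i j * (k j : ℂ)) / (4 * (e : ℂ))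
        - (∑ i, ((b i).val : ℂ) * (s i : ℂ)) / (e : ℂ))), ?_⟩
  have hsum : Summable (fun l : Fin g → ℤ =>
      Complex.exp (Real.pi * Complex.I * ∑ i, ((b i).val : ℂ) * ((l i : ℤ) : ℂ)) *
      tht ((e : ℂ) • τ) (fun i => ((k i + 2 * s i : ℤ) : ℝ) / (2 * (e : ℝ))) 0 l) := by
    obtain ⟨u, hu, hb⟩ := tbd g ((e : ℂ) • τ) (siegel_smul hτ he)
      (∑ i, |((k i + 2 * s i : ℤ) : ℝ) / (2 * (e : ℝ))|)
    refine Summable.of_norm_bounded hu fun l => ?_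
    rw [norm_mul]
    have h1 : ‖Complex.exp (Real.pi * Complex.I * ∑ i, ((b i).val : ℂ) * ((l i : ℤ) : ℂ))‖ = 1 := by
      have h2 : (Real.pi : ℂ) * Complex.I * ∑ i, ((b i).val : ℂ) * ((l i : ℤ) : ℂ) =
          ((Real.pi * ∑ i, ((b i).val : ℝ) * ((l i : ℤ) : ℝ) : ℝ) : ℂ) * Complex.I := by
        push_cast
        ring
      rw [h2, Complex.norm_exp_ofReal_mul_I]
    rw [h1, one_mul]
    refine hb _ _ (fun i => ?_) (fun i => ?_) l
    · exact Finset.single_le_sum (f := fun i => |((k i + 2 * s i : ℤ) : ℝ) / (2 * (e : ℝ))|)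
        (fun i _ => abs_nonneg _) (Finset.mem_univ i)
    · rw [Pi.zero_apply, norm_zero]
      exact Finset.sum_nonneg fun i _ => abs_nonneg _
  have h1 : ∑ c : Fin g → ZMod 2, ((sgn b c : ℤ) : ℂ)
      * vt τ (4 * e) (fun r => k r + 2 * s r + 2 * (e : ℤ) * ((c r).val : ℤ)) 0 =
      ∑' l : Fin g → ℤ,
        Complex.exp (Real.pi * Complex.I * ∑ i, ((b i).val : ℂ) * ((l i : ℤ) : ℂ)) *
        tht ((e : ℂ) • τ) (fun i => ((k i + 2 * s i : ℤ) : ℝ) / (2 * (e : ℝ))) 0 l := by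
    rw [← Equiv.tsum_eq (spl g)]
    refine Eq.trans ?_ (Summable.tsum_prod ((Equiv.summable_iff (spl g)).2 hsum)).symm
    rw [tsum_fintype]
    refine Finset.sum_congr rfl fun c _ => ?_
    unfold vt ths
    rw [← tsum_mul_left]
    refine tsum_congr fun m => ?_
    rw [sgn_eq b c m, term1 τ he0 (fun r => k r + 2 * s r) c m]
    rfl
  rw [h1]
  unfold vt ths
  rw [← tsum_mul_left]
  exact tsum_congr fun l => term2 τ hτ.1 he0 b k s l

end Pool.Agent.ZES.H81
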